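import Mathlib
import Pool.Graph.R_pool_sql_team_ae5b0c61.Results.MP_8e9337_gt.DiamondCex
import Pool.Graph.R_seed8.Helper639.ForceCH

/-!
# MP_8e9337_gt: `s`-groups which are `k`-spaces of countable tightness and not sequential

First part: some notion of forcing preserves `ω₁` and forces Jensen's principle `◊` (the forcing
language is the one of `Pool.Agent.Helper639.ForceCH`).
Second part: `◊` gives a Hausdorff topological group which is an `s`-group, has countable
tightness, is a `k`-space, and is not sequential.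
So the negated form of Q1 is consistent with ZFC.
-/

set_option autoImplicit false

namespace Pool.Agent.Results.MP_8e9337_gt.ConsistentlyNo

open Set Cardinal Order Topology Filter
open Pool.Agent.Helper639.ForceCH (Om OmegaOnePreserved DiamondHolds)

/-- `C` is a closed unbounded subset of `ω₁` (the sentence named by `IsClubName`). -/
def IsClubSet (C : Om → Prop) : Prop :=
  (∀ a : Om, ∃ b : Om, a < b ∧ C b) ∧
    ∀ a : Om, (∃ b, b < a) → (∀ b : Om, b < a → ∃ c : Om, (b < c ∧ c < a) ∧ C c) → C a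

/-- Jensen's principle `◊`: the sentence which `DiamondHolds P` says is forced, evaluated in the
universe. -/
def Diamond : Prop :=
  ∃ A : Om → Om → Prop, ∀ S : Om → Prop, ∀ C : Om → Prop,
    IsClubSet C → ∃ a : Om, C a ∧ ∀ b : Om, b < a → (S b ↔ A a b)

/-- `(G, τ)` is an `s`-group: `τ` is the finest Hausdorff group topology on `G` in which all the
sequences converge which converge in `τ`. -/
def IsSGroup (G : Type) [Group G] (τ : TopologicalSpace G) : Prop :=
  ∀ σ : TopologicalSpace G, @IsTopologicalGroup G σ _ → @T2Space G σ →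
    (∀ u : ℕ → G, (∃ x : G, Tendsto u atTop (@nhds G τ x)) →
      ∃ y : G, Tendsto u atTop (@nhds G σ y)) → τ ≤ σ

/-- Countable tightness. -/
def CountableTightness (X : Type) [TopologicalSpace X] : Prop :=
  ∀ (A : Set X) (x : X), x ∈ closure A → ∃ B ⊆ A, B.Countable ∧ x ∈ closure B

/-- `X` is a `k`-space. -/
def IsKSpace (X : Type) [TopologicalSpace X] : Prop :=
  ∀ A : Set X, (∀ K : Set X, IsCompact K → IsClosed (A ∩ K)) → IsClosed A

/-- Every sequentially continuous homomorphism into a Hausdorff topological group is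
continuous. -/
def SeqContinuousHomsContinuous (G : Type) [Group G] (τ : TopologicalSpace G) : Prop :=
  ∀ (H : Type) [Group H] [TopologicalSpace H] [IsTopologicalGroup H] [T2Space H] (φ : G →* H),
    SeqContinuous φ → Continuous φ

theorem dia_of_diamond (h : Diamond) : Pool.Agent.H33.DiaDefs.Diamond := by
  obtain ⟨A, hA⟩ := h
  have key : ∀ o : Ordinal.{0}, o = (ℵ₁ : Cardinal.{0}).ord → ∀ (_ : NoMaxOrder o.ToType),
      (∃ A : o.ToType → o.ToType → Prop, ∀ S : o.ToType → Prop, ∀ C : o.ToType → Prop,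
        ((∀ a : o.ToType, ∃ b : o.ToType, a < b ∧ C b) ∧
          ∀ a : o.ToType, (∃ b, b < a) →
            (∀ b : o.ToType, b < a → ∃ c : o.ToType, (b < c ∧ c < a) ∧ C c) → C a) →
          ∃ a : o.ToType, C a ∧ ∀ b : o.ToType, b < a → (S b ↔ A a b)) →
      ∃ D : o.ToType → Set o.ToType, ∀ Y : Set o.ToType,
        IsStationary {δ | Y ∩ Iio δ = D δ} := by
    intro o _ _ ⟨A, hA⟩
    refine ⟨fun a => {b | b < a ∧ A a b}, fun Y C hC => ?_⟩
    have c1 : ∀ a : o.ToType, ∃ b : o.ToType, a < b ∧ b ∈ C := fun a => by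
      obtain ⟨a', ha'⟩ := exists_gt a
      obtain ⟨b, hb, hb'⟩ := hC.isCofinal a'
      exact ⟨b, ha'.trans_le hb', hb⟩
    have c2 : ∀ a : o.ToType, (∃ b, b < a) →
        (∀ b : o.ToType, b < a → ∃ c : o.ToType, (b < c ∧ c < a) ∧ c ∈ C) → a ∈ C := by
      intro a h3 h4
      obtain ⟨b0, hb0⟩ := h3
      obtain ⟨c0, hc0, hc0'⟩ := h4 b0 hb0
      refine hC.isLUB_mem (t := {c | c ∈ C ∧ c < a}) (fun c hc => hc.1) ⟨c0, hc0', hc0.2⟩
        ⟨fun c hc => hc.2.le, fun b hb => ?_⟩
      by_contra h5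
      obtain ⟨c, hc, hc'⟩ := h4 b (not_le.1 h5)
      exact absurd (hb ⟨hc', hc.2⟩) (not_le.2 hc.1)
    obtain ⟨a, h1, h2⟩ := hA (fun b => b ∈ Y) (fun b => b ∈ C) ⟨c1, c2⟩
    refine ⟨a, ?_, h1⟩
    ext b
    simp only [mem_inter_iff, mem_Iio, Set.mem_ofPred_eq]
    exact ⟨fun h => ⟨h.2, (h2 b h.2).1 h.1⟩, fun h => ⟨(h2 b h.1).2 h.2, h.1⟩⟩
  exact key _ rfl inferInstance ⟨A, hA⟩

/-- The second form of the definition of `s`-groups. -/
theorem IsSGroup.homs {G : Type} [Group G] {τ : TopologicalSpace G} [IsTopologicalGroup G]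
    [T2Space G] (h : IsSGroup G τ) : SeqContinuousHomsContinuous G τ := by
  intro H _ _ _ _ φ hφ
  have h1 := h (τ ⊓ TopologicalSpace.induced φ inferInstance) ?_ ?_ ?_
  · exact continuous_iff_le_induced.2 (h1.trans inf_le_right)
  · exact topologicalGroup_inf inferInstance (topologicalGroup_induced φ)
  · refine @T2Space.mk G (τ ⊓ TopologicalSpace.induced φ inferInstance) fun x y hxy => ?_
    obtain ⟨U, V, hU, hV, hx, hy, hUV⟩ := t2_separation hxy
    exact ⟨U, V, TopologicalSpace.le_def.1 inf_le_left U hU,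
      TopologicalSpace.le_def.1 inf_le_left V hV, hx, hy, hUV⟩
  · rintro u ⟨x, hx⟩
    refine ⟨x, ?_⟩
    rw [nhds_inf, tendsto_inf]
    refine ⟨hx, ?_⟩
    rw [nhds_induced, tendsto_comap_iff]
    exact hφ hx

/-- **It is consistent that some `s`-group of countable tightness which is a `k`-space is not
sequential.** -/
theorem result :
    (∃ (P : Type) (_ : Preorder P), Nonempty P ∧
      ∀ p : P, p ∈ OmegaOnePreserved P ∧ p ∈ DiamondHolds P) ∧
    (Diamond → ∃ (G : Type) (_ : Group G) (τ : TopologicalSpace G), IsTopologicalGroup G ∧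
      T2Space G ∧ IsSGroup G τ ∧ SeqContinuousHomsContinuous G τ ∧ CountableTightness G ∧
      IsKSpace G ∧ ¬ SequentialSpace G) := by
  refine ⟨?_, fun hd => ?_⟩
  · obtain ⟨P, i, hn, h⟩ := Pool.Agent.Helper639.ForceCH.exists_forcing
    exact ⟨P, i, hn, fun p => ⟨(h p).1, (h p).2.1⟩⟩
  · by_contra hc
    refine Pool.Agent.Results.MP_8e9337_gt.DiamondCex.result (dia_of_diamond hd)
      fun G _ τ h1 h2 h3 h4 h5 => ?_
    by_contra h6
    exact hc ⟨G, inferInstance, τ, h1, h2, h3, IsSGroup.homs h3, h4, h5, h6⟩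

end Pool.Agent.Results.MP_8e9337_gt.ConsistentlyNo
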